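import Pool.Agent.Helper72K9.UN.Splice
import Pool.Agent.Helper72K9.SQ.Mean
import Pool.Agent.H382L.GapUnif

/-! Uniformity in the pattern for the mean squares of window sums. -/

open Filter Topology MeasureTheory

namespace Pool.Agent.Helper72K9.UN

open H177.Lat Pool.Agent.Helper72K9.SQ
open SG (NZ)

lemma NZ_ratio : ∃ C T1 : ℝ, 0 < C ∧ 8 ≤ T1 ∧ ∀ T : ℝ, T1 ≤ T → (NZ (3 * T) : ℝ) ≤ C * NZ T := by
  obtain ⟨C, hC, h3⟩ := NZ_three
  obtain ⟨c, T1, hc, hT1, hlow⟩ := LG.GapAux.NZ_low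
  refine ⟨4 * C / c, 2 * T1, by positivity, by linarith, fun T hT => ?_⟩
  have h1 := h3 T (by linarith)
  have h2 := hlow (T / 2) (by linarith)
  have e1 : 2 * (T / 2) = T := by ring
  rw [e1] at h2
  have hlog : Real.log T ≤ 2 * Real.log (T / 2) := by
    have h5 : Real.log T ≤ Real.log ((T / 2) ^ 2) := by
      apply Real.log_le_log (by linarith)
      nlinarith
    rw [Real.log_pow] at h5
    push_cast at h5
    exact h5
  have h6 : T * Real.log T ≤ 4 * (T / 2 * Real.log (T / 2)) := by nlinarith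
  have h7 : T / 2 * Real.log (T / 2) ≤ NZ T / c := by
    rw [le_div_iff₀ hc]
    linarith
  calc (NZ (3 * T) : ℝ) ≤ C * (T * Real.log T) := h1
    _ ≤ C * (4 * (NZ T / c)) := by
      apply mul_le_mul_of_nonneg_left _ hC.le
      linarith
    _ = 4 * C / c * NZ T := by
      field_simp

theorem var_unif (hRH : RiemannHypothesis) (θ : ℝ) (hθ : 0 < θ) (hθ1 : θ ≤ 1)
    (L : ℝ) (hL : 4 ≤ θ * L) :
    ∃ ε : ℝ, 0 < ε ∧ ∃ T0 : ℝ, ∀ T : ℝ, T0 ≤ T → ∀ α : ℕ → ℝ,
      ((BadS θ ε α (NZ (3 * T))).ncard : ℝ) ≤ ε * NZ (3 * T) →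
      θ * L / 600 * T ≤
        ∫ τ in T..(2 * T), ‖GG (fun n => θ * sq α n) (2 * Real.pi * L / Real.log T) τ‖ ^ 2 := by
  have hpi := Real.pi_pos
  have hL0 : 0 < L := by
    by_contra hcon
    push Not at hcon
    nlinarith
  obtain ⟨C, T1, hC, hT1, hratio⟩ := NZ_ratio
  obtain ⟨T4, hT4⟩ := (Real.tendsto_log_atTop.eventually_ge_atTop
    (2 * Real.pi * L)).exists_forall_of_atTop
  by_contra hcon
  have h : ∀ (n : ℕ) (T0 : ℝ), ∃ T : ℝ, T0 ≤ T ∧ ∃ α : ℕ → ℝ,
      ((BadS θ (1 / ((n : ℝ) + 1)) α (NZ (3 * T))).ncard : ℝ) ≤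
        1 / ((n : ℝ) + 1) * NZ (3 * T) ∧
      ∫ τ in T..(2 * T), ‖GG (fun n => θ * sq α n) (2 * Real.pi * L / Real.log T) τ‖ ^ 2 <
        θ * L / 600 * T := by
    intro n T0
    by_contra h'
    refine hcon ⟨1 / ((n : ℝ) + 1), by positivity, T0, fun T hT α h1 => ?_⟩
    by_contra h3
    exact h' ⟨T, hT, α, h1, not_le.mp h3⟩
  choose Tf hTf αf hbf hif using h
  choose U hU using SG.NZ_unbounded
  let F : ℕ → ℝ → ℝ := fun n p =>
    max (max (3 * p + 1) (U ((n + 2) * (NZ (3 * p) + 1)))) (max T1 (max T4 2))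
  let P : ℕ → ℝ := fun n => Nat.rec (Tf 0 (F 0 0)) (fun n p => Tf (n + 1) (F n p)) n
  let A : ℕ → ℕ → ℝ := fun n => Nat.casesOn n (αf 0 (F 0 0)) (fun m => αf (m + 1) (F m (P m)))
  have hPs : ∀ n, P (n + 1) = Tf (n + 1) (F n (P n)) := fun n => rfl
  have hPbig : ∀ n, max T1 (max T4 2) ≤ P n := by
    intro n
    rcases n with _ | m
    · exact (le_max_right _ _).trans (hTf 0 (F 0 0))
    · exact (le_max_right _ _).trans (hTf (m + 1) (F m (P m)))
  have hPT1 : ∀ n, T1 ≤ P n := fun n => (le_max_left _ _).trans (hPbig n)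
  have hPT4 : ∀ n, T4 ≤ P n := fun n =>
    ((le_max_left _ _).trans (le_max_right _ _)).trans (hPbig n)
  have hPstep : ∀ n, 3 * P n + 1 ≤ P (n + 1) := fun n =>
    ((le_max_left _ _).trans (le_max_left _ _)).trans (hTf (n + 1) (F n (P n)))
  have hPU : ∀ n, (n + 2) * (NZ (3 * P n) + 1) ≤ NZ (P (n + 1)) := fun n =>
    (hU _).trans (SG.NZ_mono (((le_max_right _ _).trans (le_max_left _ _)).trans
      (hTf (n + 1) (F n (P n)))))
  have hbad : ∀ n : ℕ, ((BadS θ (1 / ((n : ℝ) + 1)) (A n) (NZ (3 * P n))).ncard : ℝ) ≤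
      1 / ((n : ℝ) + 1) * NZ (3 * P n) := by
    intro n
    rcases n with _ | m
    · exact hbf 0 (F 0 0)
    · exact hbf (m + 1) (F m (P m))
  have hint : ∀ n : ℕ, ∫ τ in (P n)..(2 * P n),
      ‖GG (fun i => θ * sq (A n) i) (2 * Real.pi * L / Real.log (P n)) τ‖ ^ 2 <
        θ * L / 600 * P n := by
    intro n
    rcases n with _ | m
    · exact hif 0 (F 0 0)
    · exact hif (m + 1) (F m (P m))
  -- the ends of the blocks
  let lo : ℕ → ℕ := fun n => NZ (P n)
  let hi : ℕ → ℕ := fun n => NZ (3 * P n)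
  have hPpos : ∀ n, 0 < P n := fun n => by linarith [hPT1 n]
  have hlohi : ∀ n, lo n ≤ hi n := fun n => SG.NZ_mono (by linarith [hPpos n])
  have hhilo : ∀ n, (n + 2) * (hi n + 1) ≤ lo (n + 1) := hPU
  have hhilo1 : ∀ n, hi n + 1 ≤ lo (n + 1) := fun n =>
    le_trans (Nat.le_mul_of_pos_left _ (by omega)) (hhilo n)
  have hhimono : Monotone hi := monotone_nat_of_le_succ fun n => by
    have h1 := hhilo1 n
    have h2 := hlohi (n + 1)
    omega
  have hlomono : Monotone lo := monotone_nat_of_le_succ fun n => by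
    have h1 := hhilo1 n
    have h2 := hlohi n
    omega
  have hloge : ∀ n, n ≤ lo n := by
    intro n
    induction n with
    | zero => exact Nat.zero_le _
    | succ n ih =>
      have h1 := hhilo1 n
      have h2 := hlohi n
      omega
  have huniq : ∀ m n j, lo m < j → j ≤ hi m → lo n < j → j ≤ hi n → m = n := by
    intro m n j h1 h2 h3 h4
    rcases lt_trichotomy m n with h5 | h5 | h5
    · exfalso
      have h6 : hi m + 1 ≤ lo (m + 1) := hhilo1 m
      have h7 : lo (m + 1) ≤ lo n := hlomono (show m + 1 ≤ n by omega)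
      omega
    · exact h5
    · exfalso
      have h6 : hi n + 1 ≤ lo (n + 1) := hhilo1 n
      have h7 : lo (n + 1) ≤ lo m := hlomono (show n + 1 ≤ m by omega)
      omega
  classical
  let a : ℕ → ℝ := fun j => if hj : ∃ n, lo n < j ∧ j ≤ hi n then A hj.choose j else del j
  have ha1 : ∀ n j, lo n < j → j ≤ hi n → a j = A n j := by
    intro n j h1 h2
    have hj : ∃ n, lo n < j ∧ j ≤ hi n := ⟨n, h1, h2⟩
    have e1 : hj.choose = n := huniq _ _ j hj.choose_spec.1 hj.choose_spec.2 h1 h2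
    show (if hj : ∃ n, lo n < j ∧ j ≤ hi n then A hj.choose j else del j) = _
    rw [dif_pos hj, e1]
  have ha2 : ∀ j, (¬ ∃ n, lo n < j ∧ j ≤ hi n) → a j = del j := by
    intro j hj
    show (if hj : ∃ n, lo n < j ∧ j ≤ hi n then A hj.choose j else del j) = _
    rw [dif_neg hj]
  -- almost all spacings follow the spliced pattern
  have hA : ∀ ε : ℝ, 0 < ε → ∀ᶠ X : ℕ in atTop,
      ({j : ℕ | 1 ≤ j ∧ j ≤ X ∧ ∀ k : ℤ, ε ≤ |del j - a j - k / θ|}.ncard : ℝ) ≤ ε * X := by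
    intro ε hε
    obtain ⟨n1, hn1⟩ := exists_nat_gt ((1 + C + 1) / ε)
    filter_upwards [eventually_gt_atTop (lo (n1 + 1))] with X hX
    -- the last block which begins before `X`
    obtain ⟨n, hn, hn2, hn3⟩ : ∃ n, n1 ≤ n ∧ lo (n + 1) < X ∧ X ≤ lo (n + 2) := by
      have hex : ∃ m, X ≤ lo m := ⟨X, hloge X⟩
      have h1 := Nat.find_spec hex
      have h2 : n1 + 1 < Nat.find hex := by
        by_contra hc
        have : lo (Nat.find hex) ≤ lo (n1 + 1) :=
          hlomono (show Nat.find hex ≤ n1 + 1 by omega)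
        omega
      refine ⟨Nat.find hex - 2, by omega, ?_, ?_⟩
      · have h3 := Nat.find_min hex (show Nat.find hex - 2 + 1 < Nat.find hex by omega)
        omega
      · have e : Nat.find hex - 2 + 2 = Nat.find hex := by omega
        rw [e]
        exact h1
    have hn1' : (0 : ℝ) < (n : ℝ) + 2 := by positivity
    have hXpos : (0 : ℝ) < X := by
      have : 0 < X := by omega
      exact_mod_cast this
    have hεn : (1 + C) / ((n : ℝ) + 2) ≤ ε ∧ 1 / ((n : ℝ) + 2) ≤ ε := by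
      have h1 : (n1 : ℝ) ≤ n := by exact_mod_cast hn
      rw [div_lt_iff₀ hε] at hn1
      constructor
      · rw [div_le_iff₀ hn1']
        nlinarith
      · rw [div_le_iff₀ hn1']
        nlinarith
    have hsub : {j : ℕ | 1 ≤ j ∧ j ≤ X ∧ ∀ k : ℤ, ε ≤ |del j - a j - k / θ|} ⊆
        ((Finset.Icc 1 (hi n) : Finset ℕ) : Set ℕ) ∪
          BadS θ (1 / (((n + 1 : ℕ) : ℝ) + 1)) (A (n + 1)) (hi (n + 1)) := by
      rintro j ⟨h1, h2, h3⟩
      by_cases hj : ∃ m, lo m < j ∧ j ≤ hi m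
      · obtain ⟨m, hm1, hm2⟩ := hj
        have hmn : m ≤ n + 1 := by
          by_contra hc
          have : lo (n + 2) ≤ lo m := hlomono (show n + 2 ≤ m by omega)
          omega
        rcases Nat.lt_or_ge m (n + 1) with h4 | h4
        · left
          rw [Finset.mem_coe, Finset.mem_Icc]
          exact ⟨h1, hm2.trans (hhimono (show m ≤ n by omega))⟩
        · right
          have e1 : m = n + 1 := by omega
          rw [e1] at hm1 hm2
          refine ⟨h1, hm2, fun k => ?_⟩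
          have h6 := h3 k
          rw [ha1 (n + 1) j hm1 hm2] at h6
          refine le_trans ?_ h6
          have e2 : 1 / (((n + 1 : ℕ) : ℝ) + 1) = 1 / ((n : ℝ) + 2) := by
            push_cast
            ring_nf
          rw [e2]
          exact hεn.2
      · exfalso
        have h6 := h3 0
        rw [ha2 j hj] at h6
        simp at h6
        linarith
    have h1 := Set.ncard_le_ncard hsub ((Finset.finite_toSet _).union (badS_finite _ _ _ _))
    have h2 := Set.ncard_union_le ((Finset.Icc 1 (hi n) : Finset ℕ) : Set ℕ)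
      (BadS θ (1 / (((n + 1 : ℕ) : ℝ) + 1)) (A (n + 1)) (hi (n + 1)))
    have h3 : ((Finset.Icc 1 (hi n) : Finset ℕ) : Set ℕ).ncard = hi n := by
      rw [Set.ncard_coe_finset, Nat.card_Icc]
      omega
    rw [h3] at h2
    have h4 : (({j : ℕ | 1 ≤ j ∧ j ≤ X ∧ ∀ k : ℤ, ε ≤ |del j - a j - k / θ|}.ncard : ℕ) : ℝ) ≤
        ((hi n + (BadS θ (1 / (((n + 1 : ℕ) : ℝ) + 1)) (A (n + 1)) (hi (n + 1))).ncard : ℕ) : ℝ) :=
      Nat.cast_le.mpr (h1.trans h2)
    rw [Nat.cast_add] at h4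
    have h5 := hbad (n + 1)
    have h6 : (NZ (3 * P (n + 1)) : ℝ) ≤ C * NZ (P (n + 1)) := hratio _ (hPT1 (n + 1))
    have h7 : (NZ (P (n + 1)) : ℝ) ≤ X := by exact_mod_cast hn2.le
    have h8 : ((n : ℝ) + 2) * (NZ (3 * P n) : ℝ) ≤ X := by
      have h9 : (n + 2) * hi n ≤ X := by
        have h10 := hhilo n
        have h11 : (n + 2) * hi n ≤ (n + 2) * (hi n + 1) := Nat.mul_le_mul_left _ (Nat.le_succ _)
        omega
      exact_mod_cast h9
    have e2 : 1 / (((n + 1 : ℕ) : ℝ) + 1) = 1 / ((n : ℝ) + 2) := by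
      push_cast
      ring_nf
    have h10 : (NZ (3 * P n) : ℝ) ≤ X / ((n : ℝ) + 2) := by
      rw [le_div_iff₀ hn1']
      linarith
    have h11 : ((BadS θ (1 / (((n + 1 : ℕ) : ℝ) + 1)) (A (n + 1)) (hi (n + 1))).ncard : ℝ) ≤
        C * X / ((n : ℝ) + 2) := by
      refine h5.trans ?_
      rw [e2, one_div_mul_eq_div]
      apply div_le_div_of_nonneg_right _ hn1'.le
      exact h6.trans (mul_le_mul_of_nonneg_left h7 hC.le)
    have h12 : X / ((n : ℝ) + 2) + C * X / ((n : ℝ) + 2) = (1 + C) / ((n : ℝ) + 2) * X := by ring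
    have h13 : (1 + C) / ((n : ℝ) + 2) * X ≤ ε * X := mul_le_mul_of_nonneg_right hεn.1 hXpos.le
    have h14 : ((hi n : ℕ) : ℝ) ≤ X / ((n : ℝ) + 2) := h10
    linarith
  obtain ⟨T5, hT5⟩ := (var_main hRH θ a hθ hθ1 hA L hL).exists_forall_of_atTop
  -- a large block
  have hPn : ∀ n : ℕ, (n : ℝ) ≤ P n := by
    intro n
    induction n with
    | zero => simpa using (hPpos 0).le
    | succ n ih =>
      have h1 := hPstep n
      have h2 := hPpos n
      push_cast
      linarith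
  obtain ⟨n, hn⟩ := exists_nat_ge T5
  have hmain := hT5 (P n) (hn.trans (hPn n))
  refine absurd hmain (not_le.mpr ?_)
  refine lt_of_eq_of_lt ?_ (hint n)
  apply intervalIntegral.integral_congr
  intro τ hτ
  rw [Set.uIcc_of_le (by linarith [hPpos n])] at hτ
  have hlogP : 2 * Real.pi * L ≤ Real.log (P n) := hT4 (P n) (hPT4 n)
  have hlogpos : 0 < Real.log (P n) := lt_of_lt_of_le (by positivity) hlogP
  have hh1 : 2 * Real.pi * L / Real.log (P n) ≤ 1 := by
    rw [div_le_one hlogpos]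
    exact hlogP
  have e1 : GG (fun i => θ * sq a i) (2 * Real.pi * L / Real.log (P n)) τ =
      ee (θ * (sq a (lo n + 1) - sq (A n) (lo n + 1))) *
        GG (fun i => θ * sq (A n) i) (2 * Real.pi * L / Real.log (P n)) τ := by
    unfold GG
    rw [Finset.mul_sum]
    refine Finset.sum_congr rfl fun i hi' => ?_
    rw [Finset.mem_Ioc] at hi'
    have h1 : lo n < i := lt_of_le_of_lt (SG.NZ_mono hτ.1) hi'.1
    have h2 : i ≤ hi n := hi'.2.trans (SG.NZ_mono (by linarith [hτ.2, hPT1 n]))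
    rw [← ee_add]
    congr 1
    have h3 : ∀ b : ℕ → ℝ, sq b i = sq b (lo n + 1) + ∑ x ∈ Finset.Ico (lo n + 1) i, b x := by
      intro b
      unfold H177.Lat.sq
      rw [Finset.sum_range_add_sum_Ico _ (by omega)]
    show θ * H177.Lat.sq a i = θ * (H177.Lat.sq a (lo n + 1) - H177.Lat.sq (A n) (lo n + 1)) +
      θ * H177.Lat.sq (A n) i
    rw [h3 a, h3 (A n)]
    have h4 : ∑ x ∈ Finset.Ico (lo n + 1) i, a x = ∑ x ∈ Finset.Ico (lo n + 1) i, A n x := by
      refine Finset.sum_congr rfl fun x hx => ?_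
      rw [Finset.mem_Ico] at hx
      exact ha1 n x (by omega) (by omega)
    rw [h4]
    ring
  show ‖GG (fun i => θ * sq a i) (2 * Real.pi * L / Real.log (P n)) τ‖ ^ 2 =
    ‖GG (fun i => θ * sq (A n) i) (2 * Real.pi * L / Real.log (P n)) τ‖ ^ 2
  rw [e1, norm_mul, ee_norm, one_mul]

end Pool.Agent.Helper72K9.UN
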