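import Pool.Agent.Helper72K9.SQ.Dis

/-! Uniformity in the pattern: the patterns may depend on the height. -/

open Filter Topology

namespace Pool.Agent.Helper72K9.UN

open H177.Lat

/-- the bad indices -/
def BadS (θ ε : ℝ) (α : ℕ → ℝ) (X : ℕ) : Set ℕ :=
  {n : ℕ | 1 ≤ n ∧ n ≤ X ∧ ∀ k : ℤ, ε ≤ |del n - α n - k / θ|}

lemma badS_finite (θ ε : ℝ) (α : ℕ → ℝ) (X : ℕ) : (BadS θ ε α X).Finite :=
  (Set.finite_Iic X).subset fun _ hn => hn.2.1

lemma badS_anti (θ : ℝ) (α : ℕ → ℝ) (X : ℕ) {ε ε' : ℝ} (h : ε' ≤ ε) :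
    ((BadS θ ε α X).ncard : ℝ) ≤ ((BadS θ ε' α X).ncard : ℝ) := by
  have h1 : BadS θ ε α X ⊆ BadS θ ε' α X := fun n hn => ⟨hn.1, hn.2.1, fun k => h.trans (hn.2.2 k)⟩
  exact_mod_cast Set.ncard_le_ncard h1 (badS_finite _ _ _ _)

/-- the window sums of the beginning of the pattern -/
def WS (θ : ℝ) (α : ℕ → ℝ) (μ : ℂ) (N X : ℕ) (D : ℝ) : Prop :=
  ∀ m j : ℕ, j ≤ N → m + j ≤ X + 1 → ‖∑ i ∈ Finset.range j, (ee (θ * sq α (m + i)) - μ)‖ ≤ D

lemma exists_rot (θ : ℝ) (hθ : 0 < θ) (μ : ℂ) : ∃ c : ℝ, ee (θ * c) * μ = (‖μ‖ : ℂ) := by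
  refine ⟨-(μ.arg / (2 * Real.pi * θ)), ?_⟩
  have hpi := Real.pi_pos
  have h1 : 2 * Real.pi * (θ * -(μ.arg / (2 * Real.pi * θ))) = -μ.arg := by
    field_simp
  unfold ee
  rw [h1]
  have h3 := Complex.norm_mul_exp_arg_mul_I μ
  have h2 : Complex.exp ((((-μ.arg : ℝ)) : ℂ) * Complex.I) * Complex.exp ((μ.arg : ℂ) * Complex.I) = 1 := by
    rw [← Complex.exp_add]
    push_cast
    rw [neg_mul, neg_add_cancel, Complex.exp_zero]
  calc Complex.exp ((((-μ.arg : ℝ)) : ℂ) * Complex.I) * μ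
      = Complex.exp ((((-μ.arg : ℝ)) : ℂ) * Complex.I) *
          ((‖μ‖ : ℂ) * Complex.exp ((μ.arg : ℂ) * Complex.I)) := by rw [h3]
    _ = (‖μ‖ : ℂ) * (Complex.exp ((((-μ.arg : ℝ)) : ℂ) * Complex.I) *
          Complex.exp ((μ.arg : ℂ) * Complex.I)) := by ring
    _ = _ := by rw [h2, mul_one]

/-- The uniform statement for all `μ` with absolute value near `r`. -/
theorem local_unif (hRH : RiemannHypothesis) (θ : ℝ) (hθ : 0 < θ) (hθ1 : θ ≤ 1) (N : ℕ)
    (hN : 576 ≤ θ * N) (r : ℝ) :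
    ∃ δ : ℝ, 0 < δ ∧ ∃ ε : ℝ, 0 < ε ∧ ∃ X0 : ℕ, ∀ X : ℕ, X0 ≤ X → ∀ (α : ℕ → ℝ) (μ : ℂ),
      |‖μ‖ - r| ≤ δ → WS θ α μ N X (√(θ * N) / 1001) →
      ε * X ≤ ((BadS θ ε α X).ncard : ℝ) := by
  have hNpos : 0 < N := by
    rcases Nat.eq_zero_or_pos N with h0 | h0
    · rw [h0] at hN
      norm_num at hN
    · exact h0
  have hN' : (0 : ℝ) < N := by exact_mod_cast hNpos
  have hθN : 0 < θ * N := by positivity
  have hR : 0 < √(θ * N) := Real.sqrt_pos.mpr hθN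
  set R : ℝ := √(θ * N) with hRdef
  set δ : ℝ := R / (1001000 * N) with hδ
  have hδ0 : 0 < δ := by positivity
  have hNδ : N * δ = R / 1001000 := by
    rw [hδ]
    field_simp
  refine ⟨δ, hδ0, ?_⟩
  by_contra hcon
  have h : ∀ (n X0 : ℕ), ∃ X : ℕ, X0 ≤ X ∧ ∃ (α : ℕ → ℝ) (μ : ℂ), |‖μ‖ - r| ≤ δ ∧
      WS θ α μ N X (R / 1001) ∧
      ((BadS θ (1 / ((n : ℝ) + 1)) α X).ncard : ℝ) < 1 / ((n : ℝ) + 1) * X := by
    intro n X0
    by_contra h'
    refine hcon ⟨1 / ((n : ℝ) + 1), by positivity, X0, fun X hX α μ h1 h2 => ?_⟩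
    by_contra h3
    exact h' ⟨X, hX, α, μ, h1, h2, not_le.mp h3⟩
  choose X hX α μ hμ hW hB using h
  -- the blocks
  let B : ℕ → ℕ := fun n => Nat.rec 0 (fun n b => X n ((n + 1) * (b + N + 1))) n
  have hB0 : B 0 = 0 := rfl
  have hBs : ∀ n, B (n + 1) = X n ((n + 1) * (B n + N + 1)) := fun n => rfl
  let A : ℕ → ℕ → ℝ := fun n => α n ((n + 1) * (B n + N + 1))
  let M : ℕ → ℂ := fun n => μ n ((n + 1) * (B n + N + 1))
  have hM : ∀ n, |‖M n‖ - r| ≤ δ := fun n => hμ _ _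
  have hWA : ∀ n, WS θ (A n) (M n) N (B (n + 1)) (R / 1001) := fun n => hW _ _
  have hBA : ∀ n : ℕ, ((BadS θ (1 / ((n : ℝ) + 1)) (A n) (B (n + 1))).ncard : ℝ) <
      1 / ((n : ℝ) + 1) * (B (n + 1) : ℝ) := fun n => hB _ _
  have hgrow : ∀ n, (n + 1) * (B n + N + 1) ≤ B (n + 1) := fun n => hX _ _
  have hgrow1 : ∀ n, B n + N + 1 ≤ B (n + 1) := fun n =>
    le_trans (Nat.le_mul_of_pos_left _ (Nat.succ_pos n)) (hgrow n)
  have hmono : Monotone B := monotone_nat_of_le_succ fun n => by have := hgrow1 n; omega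
  have hge : ∀ n, n ≤ B n := by
    intro n
    induction n with
    | zero => exact Nat.zero_le _
    | succ n ih => have := hgrow1 n; omega
  have hex : ∀ m, ∃ n, m ≤ B (n + 1) := fun m => ⟨m, by have := hge (m + 1); omega⟩
  classical
  let blk : ℕ → ℕ := fun m => Nat.find (hex m)
  have hblk1 : ∀ m, m ≤ B (blk m + 1) := fun m => Nat.find_spec (hex m)
  have hblk_eq : ∀ m n, m ≤ B (n + 1) → (∀ k, k < n → B (k + 1) < m) → blk m = n := by
    intro m n h1 h2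
    refine (Nat.find_eq_iff (hex m)).mpr ⟨h1, fun k hk => ?_⟩
    exact not_le.mpr (h2 k hk)
  have hblk_lt : ∀ m k, k < blk m → B (k + 1) < m := fun m k hk =>
    not_le.mp (Nat.find_min (hex m) hk)
  choose c hc using fun n => exists_rot θ hθ (M n)
  let S : ℕ → ℝ := fun m => sq (A (blk m)) m + c (blk m)
  -- window sums inside a block
  have hin : ∀ n m j, j ≤ N → m + j ≤ B (n + 1) + 1 → (∀ i, i < j → blk (m + i) = n) →
      ‖∑ i ∈ Finset.range j, (ee (θ * S (m + i)) - (r : ℂ))‖ ≤ R / 1001 + N * δ := by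
    intro n m j hj hmj hb
    have e1 : ∑ i ∈ Finset.range j, (ee (θ * S (m + i)) - (r : ℂ)) =
        ee (θ * c n) * ∑ i ∈ Finset.range j, (ee (θ * sq (A n) (m + i)) - M n) +
          (j : ℂ) * ((‖M n‖ : ℂ) - r) := by
      rw [Finset.mul_sum]
      have e2 : (j : ℂ) * ((‖M n‖ : ℂ) - r) = ∑ i ∈ Finset.range j, ((‖M n‖ : ℂ) - r) := by
        rw [Finset.sum_const, Finset.card_range, nsmul_eq_mul]
      rw [e2, ← Finset.sum_add_distrib]
      refine Finset.sum_congr rfl fun i hi => ?_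
      have e3 : S (m + i) = sq (A n) (m + i) + c n := by
        show sq (A (blk (m + i))) (m + i) + c (blk (m + i)) = _
        rw [hb i (Finset.mem_range.mp hi)]
      rw [e3, mul_add, ee_add, ← hc n]
      ring
    rw [e1]
    refine (norm_add_le _ _).trans (add_le_add ?_ ?_)
    · rw [norm_mul, ee_norm, one_mul]
      exact hWA n m j hj hmj
    · rw [norm_mul, Complex.norm_natCast]
      have e4 : ‖((‖M n‖ : ℂ) - (r : ℂ))‖ = |‖M n‖ - r| := by
        rw [← Complex.ofReal_sub, Complex.norm_real, Real.norm_eq_abs]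
      rw [e4]
      exact mul_le_mul (by exact_mod_cast hj) (hM n) (abs_nonneg _) hN'.le
  have hall : ∀ m j, j ≤ N →
      ‖∑ i ∈ Finset.range j, (ee (θ * S (m + i)) - (r : ℂ))‖ ≤ R / 500 := by
    intro m j hj
    set n := blk m with hn
    set p := min j (B (n + 1) + 1 - m) with hp
    have hm := hblk1 m
    rw [← hn] at hm
    have hpj : p ≤ j := min_le_left _ _
    have hp2 : p ≤ B (n + 1) + 1 - m := min_le_right _ _
    have hg2 := hgrow1 (n + 1)
    have h1 := hin n m p (hpj.trans hj) (by omega) (by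
      intro i hi
      refine hblk_eq _ _ (by omega) fun k hk => ?_
      have := hblk_lt m k (by rw [← hn]; exact hk)
      omega)
    have h2 := hin (n + 1) (m + p) (j - p) (by omega) (by omega) (by
      intro i hi
      refine hblk_eq _ _ (by omega) fun k hk => ?_
      have h3 : B (k + 1) ≤ B (n + 1) := hmono (show k + 1 ≤ n + 1 by omega)
      have h4 : p = B (n + 1) + 1 - m := by
        rcases min_choice j (B (n + 1) + 1 - m) with h5 | h5
        · exfalso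
          rw [← hp] at h5
          omega
        · rw [← hp] at h5
          exact h5
      omega)
    have e1 : ∑ i ∈ Finset.range j, (ee (θ * S (m + i)) - (r : ℂ)) =
        ∑ i ∈ Finset.range p, (ee (θ * S (m + i)) - (r : ℂ)) +
        ∑ i ∈ Finset.range (j - p), (ee (θ * S (m + p + i)) - (r : ℂ)) := by
      have e2 : j = p + (j - p) := by omega
      conv_lhs => rw [e2, Finset.sum_range_add]
      simp only [add_assoc]
    rw [e1]
    refine (norm_add_le _ _).trans ((add_le_add h1 h2).trans (le_of_eq ?_))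
    rw [hNδ]
    ring
  -- the spliced pattern
  let a : ℕ → ℝ := fun j => S (j + 1) - S j
  have hsq : ∀ m, sq a m = S m - S 0 := by
    intro m
    unfold H177.Lat.sq
    exact Finset.sum_range_sub S m
  obtain ⟨ε, hε, hev⟩ := Pool.Agent.Helper72K9.SQ.pattern_sqrt hRH θ a hθ hθ1 N hN
    (ee (θ * (-S 0)) * r) (by
      intro m j hj
      have e1 : ∑ i ∈ Finset.range j, (ee (θ * sq a (m + i)) - ee (θ * (-S 0)) * (r : ℂ)) =
          ee (θ * (-S 0)) * ∑ i ∈ Finset.range j, (ee (θ * S (m + i)) - (r : ℂ)) := by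
        rw [Finset.mul_sum]
        refine Finset.sum_congr rfl fun i _ => ?_
        have e9 : ee (θ * sq a (m + i)) = ee (θ * (-S 0)) * ee (θ * S (m + i)) := by
          rw [hsq, ← ee_add]
          congr 1
          ring
        rw [e9]
        ring
      rw [e1, norm_mul, ee_norm, one_mul]
      exact hall m j hj)
  obtain ⟨X1, hX1⟩ := eventually_atTop.mp hev
  obtain ⟨n0, hn0⟩ := exists_nat_gt (2 / ε)
  set n := max n0 X1 with hn
  have hnB : X1 ≤ B (n + 1) := by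
    have h1 := hge (n + 1)
    have h2 : X1 ≤ n := le_max_right _ _
    omega
  have hmain := hX1 (B (n + 1)) hnB
  have hn1 : (0 : ℝ) < (n : ℝ) + 1 := by positivity
  have hBpos : (0 : ℝ) < (B (n + 1) : ℝ) := by
    have := hgrow1 n
    have h2 : 0 < B (n + 1) := by omega
    exact_mod_cast h2
  have hεn : 2 / ((n : ℝ) + 1) < ε := by
    have h1 : (n0 : ℝ) ≤ n := by exact_mod_cast le_max_left _ _
    rw [div_lt_iff₀ hn1]
    rw [div_lt_iff₀ hε] at hn0
    nlinarith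
  have hsub : {n' : ℕ | 1 ≤ n' ∧ n' ≤ B (n + 1) ∧ ∀ k : ℤ, ε ≤ |del n' - a n' - k / θ|} ⊆
      (Finset.Icc 1 (B n) ∪ {B (n + 1)} : Finset ℕ) ∪
        BadS θ (1 / ((n : ℝ) + 1)) (A n) (B (n + 1)) := by
    rintro j ⟨h1, h2, h3⟩
    rcases le_or_gt j (B n) with h4 | h4
    · exact Or.inl (Finset.mem_coe.mpr (Finset.mem_union_left _ (Finset.mem_Icc.mpr ⟨h1, h4⟩)))
    rcases eq_or_ne j (B (n + 1)) with h5 | h5
    · exact Or.inl (Finset.mem_coe.mpr (Finset.mem_union_right _ (Finset.mem_singleton.mpr h5)))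
    right
    refine ⟨h1, h2, fun k => ?_⟩
    have b1 : blk j = n := hblk_eq _ _ h2 fun k hk => by
      have : B (k + 1) ≤ B n := hmono (show k + 1 ≤ n by omega)
      omega
    have b2 : blk (j + 1) = n := hblk_eq _ _ (by omega) fun k hk => by
      have : B (k + 1) ≤ B n := hmono (show k + 1 ≤ n by omega)
      omega
    have e1 : a j = A n j := by
      show sq (A (blk (j + 1))) (j + 1) + c (blk (j + 1)) - (sq (A (blk j)) j + c (blk j)) = _
      rw [b1, b2]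
      unfold H177.Lat.sq
      rw [Finset.sum_range_succ]
      ring
    have h6 := h3 k
    rw [e1] at h6
    have h7 : 1 / ((n : ℝ) + 1) ≤ ε := by
      have : 1 / ((n : ℝ) + 1) ≤ 2 / ((n : ℝ) + 1) := by gcongr; norm_num
      linarith
    exact h7.trans h6
  have hcard : (({n' : ℕ | 1 ≤ n' ∧ n' ≤ B (n + 1) ∧
      ∀ k : ℤ, ε ≤ |del n' - a n' - k / θ|}.ncard : ℕ) : ℝ) ≤
      ((B n + 1 + (BadS θ (1 / ((n : ℝ) + 1)) (A n) (B (n + 1))).ncard : ℕ) : ℝ) := by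
    have h1 := Set.ncard_le_ncard hsub ((Finset.finite_toSet _).union (badS_finite _ _ _ _))
    have h2 := Set.ncard_union_le ((Finset.Icc 1 (B n) ∪ {B (n + 1)} : Finset ℕ) : Set ℕ)
      (BadS θ (1 / ((n : ℝ) + 1)) (A n) (B (n + 1)))
    have h3 : ((Finset.Icc 1 (B n) ∪ {B (n + 1)} : Finset ℕ) : Set ℕ).ncard ≤ B n + 1 := by
      rw [Set.ncard_coe_finset]
      refine (Finset.card_union_le _ _).trans ?_
      simp
    exact Nat.cast_le.mpr (h1.trans (h2.trans (Nat.add_le_add_right h3 _)))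
  have hBn : (Nat.cast (R := ℝ) (B n) + 1) ≤ 1 / ((n : ℝ) + 1) * (B (n + 1) : ℝ) := by
    rw [one_div_mul_eq_div, le_div_iff₀ hn1]
    have h1 := hgrow n
    have h2 : (n + 1) * (B n + 1) ≤ B (n + 1) := by
      refine le_trans (Nat.mul_le_mul_left _ ?_) h1
      omega
    have h3 : (((n + 1) * (B n + 1) : ℕ) : ℝ) ≤ (B (n + 1) : ℝ) := by exact_mod_cast h2
    push_cast at h3
    linarith
  have hfin : ε * (B (n + 1) : ℝ) < 2 / ((n : ℝ) + 1) * (B (n + 1) : ℝ) := by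
    calc ε * (B (n + 1) : ℝ) ≤ _ := hmain
      _ ≤ _ := hcard
      _ = (Nat.cast (R := ℝ) (B n) + 1) + ((BadS θ (1 / ((n : ℝ) + 1)) (A n) (B (n + 1))).ncard : ℝ) := by
        push_cast
        ring
      _ < 1 / ((n : ℝ) + 1) * (B (n + 1) : ℝ) + 1 / ((n : ℝ) + 1) * (B (n + 1) : ℝ) :=
        add_lt_add_of_le_of_lt hBn (hBA n)
      _ = _ := by ring
  have := mul_lt_mul_of_pos_right hεn hBpos
  linarith

/-- The uniform statement. -/
theorem unif (hRH : RiemannHypothesis) (θ : ℝ) (hθ : 0 < θ) (hθ1 : θ ≤ 1) (N : ℕ)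
    (hN : 576 ≤ θ * N) :
    ∃ ε : ℝ, 0 < ε ∧ ∃ X0 : ℕ, ∀ X : ℕ, X0 ≤ X → ∀ (α : ℕ → ℝ) (μ : ℂ),
      WS θ α μ N X (√(θ * N) / 1001) →
      ε * X ≤ ((BadS θ ε α X).ncard : ℝ) := by
  have hNpos : 0 < N := by
    rcases Nat.eq_zero_or_pos N with h0 | h0
    · rw [h0] at hN
      norm_num at hN
    · exact h0
  set K : ℝ := 1 + √(θ * N) / 1001 with hK
  have key : ∃ ε : ℝ, 0 < ε ∧ ∃ X0 : ℕ, ∀ X : ℕ, X0 ≤ X → ∀ (α : ℕ → ℝ) (μ : ℂ),
      ‖μ‖ ∈ Set.Icc 0 K → WS θ α μ N X (√(θ * N) / 1001) →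
      ε * X ≤ ((BadS θ ε α X).ncard : ℝ) := by
    refine IsCompact.induction_on (p := fun t : Set ℝ => ∃ ε : ℝ, 0 < ε ∧ ∃ X0 : ℕ, ∀ X : ℕ,
      X0 ≤ X → ∀ (α : ℕ → ℝ) (μ : ℂ), ‖μ‖ ∈ t → WS θ α μ N X (√(θ * N) / 1001) →
      ε * X ≤ ((BadS θ ε α X).ncard : ℝ)) isCompact_Icc ?_ ?_ ?_ ?_
    · exact ⟨1, one_pos, 0, fun X _ α μ h => absurd h (Set.notMem_empty _)⟩
    · rintro s t hst ⟨ε, hε, X0, h⟩
      exact ⟨ε, hε, X0, fun X hX α μ hμ => h X hX α μ (hst hμ)⟩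
    · rintro s t ⟨ε1, hε1, X1, h1⟩ ⟨ε2, hε2, X2, h2⟩
      refine ⟨min ε1 ε2, lt_min hε1 hε2, max X1 X2, fun X hX α μ hμ hW => ?_⟩
      rcases hμ with hμ | hμ
      · refine le_trans ?_ ((h1 X ((le_max_left _ _).trans hX) α μ hμ hW).trans
          (badS_anti θ α X (min_le_left _ _)))
        gcongr
        exact min_le_left _ _
      · refine le_trans ?_ ((h2 X ((le_max_right _ _).trans hX) α μ hμ hW).trans
          (badS_anti θ α X (min_le_right _ _)))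
        gcongr
        exact min_le_right _ _
    · intro r _
      obtain ⟨δ, hδ, ε, hε, X0, h⟩ := local_unif hRH θ hθ hθ1 N hN r
      refine ⟨Metric.closedBall r δ, mem_nhdsWithin_of_mem_nhds (Metric.closedBall_mem_nhds r hδ),
        ε, hε, X0, fun X hX α μ hμ => h X hX α μ ?_⟩
      rw [Metric.mem_closedBall, Real.dist_eq] at hμ
      exact hμ
  obtain ⟨ε, hε, X0, h⟩ := key
  refine ⟨ε, hε, X0, fun X hX α μ hW => h X hX α μ ⟨norm_nonneg _, ?_⟩ hW⟩
  have h1 := hW 0 1 (by omega) (by omega)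
  rw [Finset.sum_range_one] at h1
  have h2 : ‖μ‖ ≤ ‖ee (θ * sq α (0 + 0))‖ + ‖ee (θ * sq α (0 + 0)) - μ‖ := by
    have e : μ = ee (θ * sq α (0 + 0)) - (ee (θ * sq α (0 + 0)) - μ) := by ring
    conv_lhs => rw [e]
    exact norm_sub_le _ _
  rw [ee_norm] at h2
  linarith

end Pool.Agent.Helper72K9.UN
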